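import Pool.Agent.Helper797.KakeyaStar

set_option autoImplicit false

open MeasureTheory Set

namespace Pool.Agent.Results.MP_ab6de5_gt.SmallStar

/-- `R` is a Kakeya region: a unit segment `[a t, b t]` can be moved continuously inside `R`
until it occupies its starting position turned through 180 degrees. -/
def IsKakeyaRegion (R : Set (ℝ × ℝ)) : Prop :=
  ∃ a b : ℝ → ℝ × ℝ, ContinuousOn a (Icc 0 1) ∧ ContinuousOn b (Icc 0 1) ∧
    (∀ t ∈ Icc (0 : ℝ) 1,
      ((a t).1 - (b t).1) ^ 2 + ((a t).2 - (b t).2) ^ 2 = 1 ∧ segment ℝ (a t) (b t) ⊆ R) ∧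
    a 1 = b 0 ∧ b 1 = a 0

/-- `R` is star-shaped with respect to one of its points. -/
def IsStarShaped (R : Set (ℝ × ℝ)) : Prop := ∃ O ∈ R, ∀ P ∈ R, segment ℝ O P ⊆ R

/-- The infimum of the areas of star-shaped Kakeya regions. -/
noncomputable def Ks : ENNReal :=
  ⨅ (R : Set (ℝ × ℝ)) (_ : IsStarShaped R ∧ IsKakeyaRegion R), volume R

lemma star_shaped : IsStarShaped Helper797.Kakeya.Star := by
  refine ⟨0, ⟨0, 0, le_rfl, by ext <;> simp, Or.inl (by norm_num)⟩, ?_⟩
  intro P hP
  exact (Helper797.Kakeya.starConvex_region _ Helper797.Kakeya.BB_antitone _).segment_subset hP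

lemma kakeya : IsKakeyaRegion Helper797.Kakeya.Star := by
  obtain ⟨-, c, θ, hc, hθ, h1, ⟨k, hk⟩, h⟩ := Helper797.Kakeya.Star_kakeya
  have hcos : Real.cos (θ 1) = -Real.cos (θ 0) := by
    rw [hk]
    have : θ 0 + (2 * (k : ℝ) + 1) * Real.pi = (θ 0 + Real.pi) + k * (2 * Real.pi) := by ring
    rw [this, Real.cos_add_int_mul_two_pi, Real.cos_add_pi]
  have hsin : Real.sin (θ 1) = -Real.sin (θ 0) := by
    rw [hk]
    have : θ 0 + (2 * (k : ℝ) + 1) * Real.pi = (θ 0 + Real.pi) + k * (2 * Real.pi) := by ring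
    rw [this, Real.sin_add_int_mul_two_pi, Real.sin_add_pi]
  refine ⟨fun t => c t + (1 / 2 : ℝ) • (Real.cos (θ t), Real.sin (θ t)),
    fun t => c t + (-1 / 2 : ℝ) • (Real.cos (θ t), Real.sin (θ t)), ?_, ?_, ?_, ?_, ?_⟩
  · exact Continuous.continuousOn (by fun_prop)
  · exact Continuous.continuousOn (by fun_prop)
  · intro t ht
    constructor
    · simp only [Prod.fst_add, Prod.smul_fst, smul_eq_mul, Prod.snd_add, Prod.smul_snd]
      have := Real.sin_sq_add_cos_sq (θ t)
      linear_combination this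
    · rintro _ ⟨x, y, hx, hy, hxy, rfl⟩
      have h2 := h t ht (x * (1 / 2) + y * (-1 / 2)) ⟨by linarith, by linarith⟩
      convert h2 using 1
      ext
      · simp only [Prod.fst_add, Prod.smul_fst, smul_eq_mul]
        linear_combination (c t).1 * hxy
      · simp only [Prod.snd_add, Prod.smul_snd, smul_eq_mul]
        linear_combination (c t).2 * hxy
  · simp only [h1, hcos, hsin]
    ext
    · simp only [Prod.fst_add, Prod.smul_fst, smul_eq_mul]; ring
    · simp only [Prod.snd_add, Prod.smul_snd, smul_eq_mul]; ring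
  · simp only [h1, hcos, hsin]
    ext
    · simp only [Prod.fst_add, Prod.smul_fst, smul_eq_mul]; ring
    · simp only [Prod.snd_add, Prod.smul_snd, smul_eq_mul]; ring

/-- `K_s ≤ 0.090456 π ≈ 0.284176`, and this is strictly below Schoenberg's conjectured value
`(5 - 2√2)π/24 ≈ 0.284258`. -/
theorem result : Ks ≤ ENNReal.ofReal (0.090456 * Real.pi) ∧
    0.090456 * Real.pi < (5 - 2 * Real.sqrt 2) / 24 * Real.pi := by
  have hpi := Real.pi_pos
  constructor
  · refine (iInf₂_le (f := fun (R : Set (ℝ × ℝ)) (_ : IsStarShaped R ∧ IsKakeyaRegion R) =>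
      volume R) Helper797.Kakeya.Star ⟨star_shaped, kakeya⟩).trans ?_
    refine Helper797.Kakeya.Star_volume.trans (ENNReal.ofReal_le_ofReal ?_)
    apply mul_le_mul_of_nonneg_right _ hpi.le
    norm_num
  · have hs : Real.sqrt 2 < 1.4143 := by
      rw [Real.sqrt_lt' (by norm_num)]
      norm_num
    apply mul_lt_mul_of_pos_right _ hpi
    norm_num at hs ⊢
    linarith

end Pool.Agent.Results.MP_ab6de5_gt.SmallStar
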